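import Pool.Agent.helper54.UG.Spec3

/-!
# ug, row SXP: unipotent elements of the orthogonal group
-/

set_option autoImplicit false

namespace Pool.Agent.UG

open Matrix Pool.Agent.H48SL

theorem SXP_bf_comm {n : ℕ} {S : MQ n} (hS : Sᵀ = S) (x y : Fin n → ℚ) : bf S x y = bf S y x := by
  unfold bf
  rw [dotProduct_mulVec, ← mulVec_transpose, hS, dotProduct_comm]

/-- `X² = - B(a, a) v ⊗ S v` -/
theorem SXP_sq {n : ℕ} {S : MQ n} (hS : Sᵀ = S) (v a : Fin n → ℚ) (h1 : bf S v v = 0)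
    (h2 : bf S v a = 0) :
    XX S v a * XX S v a = -(bf S a a • vecMulVec v (S *ᵥ v)) := by
  have h3 : bf S a v = 0 := by rw [SXP_bf_comm hS]; exact h2
  have e1 : (S *ᵥ v) ⬝ᵥ a = 0 := by rw [dotProduct_comm]; exact h3
  have e2 : (S *ᵥ v) ⬝ᵥ v = 0 := by rw [dotProduct_comm]; exact h1
  have e3 : (S *ᵥ a) ⬝ᵥ v = 0 := by rw [dotProduct_comm]; exact h2
  have e4 : (S *ᵥ a) ⬝ᵥ a = bf S a a := by rw [dotProduct_comm]; rfl
  unfold XX
  rw [sub_mul, mul_sub, mul_sub, vecMulVec_mul_vecMulVec, vecMulVec_mul_vecMulVec,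
    vecMulVec_mul_vecMulVec, vecMulVec_mul_vecMulVec, e1, e2, e3, e4]
  simp only [zero_smul, vecMulVec_zero, vecMulVec_smul]
  simp

theorem SXP_cube {n : ℕ} {S : MQ n} (hS : Sᵀ = S) (v a : Fin n → ℚ) (h1 : bf S v v = 0)
    (h2 : bf S v a = 0) : XX S v a * XX S v a * XX S v a = 0 := by
  rw [SXP_sq hS v a h1 h2]
  have h3 : bf S a v = 0 := by rw [SXP_bf_comm hS]; exact h2
  have e1 : (S *ᵥ v) ⬝ᵥ a = 0 := by rw [dotProduct_comm]; exact h3
  have e2 : (S *ᵥ v) ⬝ᵥ v = 0 := by rw [dotProduct_comm]; exact h1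
  unfold XX
  rw [neg_mul, smul_mul_assoc, mul_sub, vecMulVec_mul_vecMulVec, vecMulVec_mul_vecMulVec, e1, e2]
  simp

theorem SXP_skew {n : ℕ} {S : MQ n} (hS : Sᵀ = S) (v a : Fin n → ℚ) :
    (XX S v a)ᵀ * S = -(S * XX S v a) := by
  have e (x : Fin n → ℚ) : x ᵥ* S = S *ᵥ x := by rw [← mulVec_transpose, hS]
  unfold XX
  rw [transpose_sub, transpose_vecMulVec, transpose_vecMulVec, sub_mul, mul_sub, vecMulVec_mul,
    vecMulVec_mul, mul_vecMulVec, mul_vecMulVec, e, e]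
  abel

theorem SXP_pres {n : ℕ} {S Y : MQ n} (h3 : Y * Y * Y = 0) (hsk : Yᵀ * S = -(S * Y)) :
    (IsNilpotent.exp Y)ᵀ * S * IsNilpotent.exp Y = S := by
  have hY3 : Y ^ 3 = 0 := by rw [pow_succ, pow_two]; exact h3
  have hexp : IsNilpotent.exp Y = 1 + Y + (1 / 2 : ℚ) • (Y * Y) := by
    rw [IsNilpotent.exp_eq_sum hY3]
    simp only [Finset.sum_range_succ, Finset.sum_range_zero, Nat.factorial, pow_zero, pow_one,
      pow_two, zero_add, Nat.cast_one, inv_one, one_smul, mul_one]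
    norm_num
  have hT : (IsNilpotent.exp Y)ᵀ * S = S * (1 - Y + (1 / 2 : ℚ) • (Y * Y)) := by
    rw [hexp, transpose_add, transpose_add, transpose_one, transpose_smul, transpose_mul, add_mul,
      add_mul, one_mul, smul_mul_assoc, mul_assoc, hsk, mul_neg, ← mul_assoc, hsk, neg_mul, neg_neg,
      mul_add, mul_sub, mul_one, mul_smul_comm, mul_assoc, sub_eq_add_neg]
  rw [hT, hexp, mul_assoc]
  have h4 : (1 - Y + (1 / 2 : ℚ) • (Y * Y)) * (1 + Y + (1 / 2 : ℚ) • (Y * Y)) = 1 := by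
    have h5 : Y * (Y * Y) = 0 := by rw [← mul_assoc]; exact h3
    simp only [add_mul, sub_mul, mul_add, mul_one, one_mul, smul_mul_assoc, mul_smul_comm,
      mul_assoc, h5, mul_zero, smul_zero]
    module
  rw [h4, mul_one]

theorem SXP (hEXJ : EXJ_stmt) (hEXI : EXI_stmt) : SXP_stmt := by
  intro n S H hS hH v a h1 h2
  have hcube := SXP_cube hS v a h1 h2
  refine ⟨hcube, ?_⟩
  have hnil : IsNilpotent (XX S v a) := ⟨3, by rw [pow_succ, pow_two]; exact hcube⟩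
  obtain ⟨k, hk, g, hg⟩ := hEXI n _ hnil
  have hpres : (qg g)ᵀ * S * qg g = S := by
    rw [hg]
    apply SXP_pres
    · rw [smul_mul_smul_comm, smul_mul_smul_comm, hcube, smul_zero]
    · rw [transpose_smul, smul_mul_assoc, SXP_skew hS, mul_smul_comm, smul_neg]
  obtain ⟨j, hj, hgj⟩ := hH g hpres
  refine ⟨j * k, Nat.mul_pos hj hk, g ^ j, hgj, ?_⟩
  have hnk : IsNilpotent ((k : ℚ) • XX S v a) := hnil.smul _
  rw [qg_pow, hg, (hEXJ n _ hnk).1 j, smul_smul, Nat.cast_mul]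

end Pool.Agent.UG
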